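import Mathlib
import Pool.Agent.H14.OrthoDefs

set_option autoImplicit false

namespace Pool.Agent.Results.MP_4cfb12_co.Three

open Pool.Agent.H14.ApnDefs Pool.Agent.H14.OrthoDefs

theorem result : ∃ n, 3 ≤ n ∧ ∃ F p : V n → V n, Quadratic F ∧ APN F ∧ IsOrtho F p ∧ NLZero p := by
  refine ⟨3, le_rfl, fun x => ![x 1 * x 2, x 0 * x 2, x 0 * x 1], fun x => x, ?_, ?_, ?_, ?_⟩
  · exact ⟨![{{1, 2}}, {{0, 2}}, {{0, 1}}], by decide +kernel, by decide +kernel, by decide +kernel⟩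
  · unfold APN; decide +kernel
  · unfold IsOrtho; decide +kernel
  · exact ⟨![1, 0, 0], by decide, ![1, 0, 0], 0, by decide +kernel⟩

end Pool.Agent.Results.MP_4cfb12_co.Three
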